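import Mathlib

namespace Pool.Agent.Results.MP_d2ef9c_co.Sevenths

open Finset Filter Topology

/-- Vertex set of the triangular grid `T_n`. -/
noncomputable def V (n : ℕ) : Finset (ℤ × ℤ) :=
  (Icc (0 : ℤ) n ×ˢ Icc (0 : ℤ) n).filter fun p => p.1 + p.2 ≤ n

/-- Adjacency of the triangular lattice. -/
def tri : SimpleGraph (ℤ × ℤ) where
  Adj p q := (p.2 = q.2 ∧ |p.1 - q.1| = 1) ∨ (p.1 = q.1 ∧ |p.2 - q.2| = 1) ∨
    (p.1 - q.1 = q.2 - p.2 ∧ |p.1 - q.1| = 1)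
  symm := ⟨fun p q h => by
    rw [abs_sub_comm q.1, abs_sub_comm q.2]
    rcases h with h | h | h
    · exact Or.inl ⟨h.1.symm, h.2⟩
    · exact Or.inr (Or.inl ⟨h.1.symm, h.2⟩)
    · exact Or.inr (Or.inr ⟨by omega, h.2⟩)⟩
  loopless := ⟨fun p h => by simp at h⟩

/-- Every connected component of the subgraph induced on `S` is complete. -/
def Indeque (S : Finset (ℤ × ℤ)) : Prop :=
  ∀ x y : (S : Set (ℤ × ℤ)), (tri.induce (S : Set (ℤ × ℤ))).Reachable x y → x ≠ y →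
    (tri.induce (S : Set (ℤ × ℤ))).Adj x y

/-- The indeque number of `T_n`. -/
noncomputable def aw (n : ℕ) : ℕ := sSup {k | ∃ S ⊆ V n, Indeque S ∧ #S = k}

noncomputable def pat (n : ℕ) (s : ℤ) : Finset (ℤ × ℤ) :=
  (V n).filter fun p => (p.1 + 3 * p.2 + s) % 7 = 0 ∨ (p.1 + 3 * p.2 + s) % 7 = 1 ∨
    (p.1 + 3 * p.2 + s) % 7 = 3

theorem adj_iff {p q : ℤ × ℤ} : tri.Adj p q ↔
    (p.2 = q.2 ∧ (p.1 - q.1 = 1 ∨ p.1 - q.1 = -1)) ∨ (p.1 = q.1 ∧ (p.2 - q.2 = 1 ∨ p.2 - q.2 = -1)) ∨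
    (p.1 - q.1 = q.2 - p.2 ∧ (p.1 - q.1 = 1 ∨ p.1 - q.1 = -1)) := by
  simp only [tri, abs_eq (zero_le_one' ℤ)]

theorem pat_ind (n : ℕ) (s : ℤ) : Indeque (pat n s) := by
  intro x y h
  rw [SimpleGraph.reachable_iff_reflTransGen] at h
  induction h with
  | refl => exact fun h => absurd rfl h
  | @tail b c _ h2 ih =>
    intro hne
    by_cases e : x = b
    · exact e ▸ h2
    · have h1 := ih e
      obtain ⟨⟨x1, x2⟩, hx⟩ := x
      obtain ⟨⟨b1, b2⟩, hb⟩ := b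
      obtain ⟨⟨c1, c2⟩, hc⟩ := c
      have hx' := (mem_filter.1 (mem_coe.1 hx)).2
      have hb' := (mem_filter.1 (mem_coe.1 hb)).2
      have hc' := (mem_filter.1 (mem_coe.1 hc)).2
      simp only [SimpleGraph.comap_adj, Function.Embedding.subtype_apply, adj_iff, ne_eq,
        Subtype.mk.injEq, Prod.mk.injEq] at h1 h2 hne hx' hb' hc' ⊢
      omega

theorem bound (n : ℕ) : 3 * #(V n) ≤ 7 * aw n := by
  have hb : BddAbove {k | ∃ S ⊆ V n, Indeque S ∧ #S = k} :=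
    ⟨#(V n), by rintro k ⟨S, hS, -, rfl⟩; exact card_le_card hS⟩
  have h1 : ∀ s, #(pat n s) ≤ aw n := fun s =>
    le_csSup hb ⟨pat n s, filter_subset _ _, pat_ind n s, rfl⟩
  have h2 : #(pat n 0) + #(pat n 1) + #(pat n 2) + #(pat n 3) + #(pat n 4) + #(pat n 5) +
      #(pat n 6) = 3 * #(V n) := by
    simp only [pat, card_filter, ← sum_add_distrib]
    rw [card_eq_sum_ones, mul_sum]
    refine sum_congr rfl fun p _ => ?_
    split_ifs <;> omega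
  have := h1 0
  have := h1 1
  have := h1 2
  have := h1 3
  have := h1 4
  have := h1 5
  have := h1 6
  omega

theorem result : (∀ n, (3 / 7 : ℝ) ≤ (aw n : ℝ) / #(V n)) ∧
    ¬ Tendsto (fun n => (aw n : ℝ) / #(V n)) atTop (𝓝 (2 / 5)) := by
  have h : ∀ n, (3 / 7 : ℝ) ≤ (aw n : ℝ) / #(V n) := by
    intro n
    have h0 : 0 < #(V n) := card_pos.2 ⟨(0, 0), by simp [V]⟩
    have h1 : (3 * #(V n) : ℝ) ≤ 7 * aw n := by exact_mod_cast bound n
    rw [le_div_iff₀ (by exact_mod_cast h0)]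
    linarith
  refine ⟨h, fun ht => ?_⟩
  have := ge_of_tendsto' ht h
  norm_num at this

end Pool.Agent.Results.MP_d2ef9c_co.Sevenths
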